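import Mathlib

/-!
# Optimal edge-colourings of complete graphs without rainbow cycles of length `n - 2`

For every `k ≥ 3` and `n ∈ {2 ^ k - 1, 2 ^ k}` there is an optimal (minimum number of colours) proper
edge-colouring of `K_n` in which no cycle of length exactly `n - 2` is rainbow.  The vertices are
vectors of `(ZMod 2) ^ k` and the edge `xy` has colour `x + y`.
The colours along a closed walk sum to zero, and so do all non-zero vectors; a rainbow cycle of length
`2 ^ k - 2` misses one colour, which would have to be zero, and one of length `2 ^ k - 3` misses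
two distinct colours, whose sum would have to be zero.
-/

set_option autoImplicit false

namespace Pool.Agent.Results.MP_4bc86c_co.ExactLengthFails

/-- `c` is a proper edge-colouring of the complete graph on `Fin n` with colours in `Fin m`: two
different edges `uv`, `uw` at a vertex `u` get different colours. -/
def Proper (n m : ℕ) (c : Sym2 (Fin n) → Fin m) : Prop :=
  ∀ u v w : Fin n, u ≠ v → u ≠ w → v ≠ w → c s(u, v) ≠ c s(u, w)

/-- The colour `e x + e y` of the edge `xy`. -/
def colour {V W : Type*} [AddCommGroup V] (e : W → V) : Sym2 W → V :=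
  Sym2.lift ⟨fun x y => e x + e y, fun x y => add_comm (e x) (e y)⟩

theorem colour_mk {V W : Type*} [AddCommGroup V] (e : W → V) (x y : W) :
    colour e s(x, y) = e x + e y := rfl

theorem walk_sum {V W : Type*} [AddCommGroup V] (h2 : ∀ x : V, x + x = 0) (e : W → V)
    {G : SimpleGraph W} {u v : W} (w : G.Walk u v) :
    (w.edges.map (colour e)).sum = e u + e v := by
  induction w with
  | nil => simp [h2]
  | @cons u v w' h p ih =>
    rw [SimpleGraph.Walk.edges_cons, List.map_cons, List.sum_cons, ih, colour_mk]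
    calc e u + e v + (e v + e w') = e u + (e v + e v) + e w' := by abel
      _ = e u + e w' := by rw [h2, add_zero]

/-- The vectors over `ZMod 2`. -/
abbrev Vec (k : ℕ) : Type := Fin k → ZMod 2

theorem vec_two {k : ℕ} (x : Vec k) : x + x = 0 := by
  funext i
  exact CharTwo.add_self_eq_zero (x i)

theorem vec_add_ne {k : ℕ} {x y : Vec k} (h : x ≠ y) : x + y ≠ 0 := by
  intro h0
  apply h
  have : x + (y + y) = y := by rw [← add_assoc, h0, zero_add]
  rwa [vec_two, add_zero] at this

theorem vec_card (k : ℕ) : Fintype.card (Vec k) = 2 ^ k := by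
  simp [Vec]

theorem vec_sum {k : ℕ} (hk : 2 ≤ k) : ∑ x : Vec k, x = 0 := by
  funext i
  rw [Finset.sum_apply]
  obtain ⟨j, hj⟩ : ∃ j : Fin k, j ≠ i := by
    have : Nontrivial (Fin k) := Fin.nontrivial_iff_two_le.mpr hk
    exact exists_ne i
  have h := Finset.sum_involution (s := (Finset.univ : Finset (Vec k))) (f := fun x => x i)
    (fun x _ => x + Pi.single j 1) ?_ ?_ ?_ ?_
  · exact h
  · intro x _
    simp [hj.symm]
    exact CharTwo.add_self_eq_zero (x i)
  · intro x _ _ h
    have := congrFun h j
    simp at this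
  · intro x _
    exact Finset.mem_univ _
  · intro x _
    rw [add_assoc, vec_two, add_zero]

/-- A list of `2 ^ k - 2` or `2 ^ k - 3` different non-zero vectors has non-zero sum. -/
theorem list_sum_ne {k : ℕ} (hk : 2 ≤ k) (l : List (Vec k)) (hl : l.Nodup) (h0 : (0 : Vec k) ∉ l)
    (hlen : l.length + 2 = 2 ^ k ∨ l.length + 3 = 2 ^ k) : l.sum ≠ 0 := by
  classical
  intro hs
  have hsum : ∑ x ∈ l.toFinset, x = 0 := by
    rw [← hs, List.sum_toFinset _ hl, List.map_id']
  have hcard : l.toFinset.card = l.length := List.toFinset_card_of_nodup hl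
  have hcompl : ∑ x ∈ l.toFinsetᶜ, x = 0 := by
    have := Finset.sum_add_sum_compl l.toFinset (fun x : Vec k => x)
    rw [hsum, zero_add, vec_sum hk] at this
    exact this
  have h0c : (0 : Vec k) ∈ l.toFinsetᶜ := by simp [h0]
  have herase : ∑ x ∈ l.toFinsetᶜ.erase 0, x = 0 := by
    have := Finset.add_sum_erase l.toFinsetᶜ (fun x : Vec k => x) h0c
    simp only [zero_add] at this
    rw [this, hcompl]
  have hcc : (l.toFinsetᶜ.erase 0).card + 1 + l.length = 2 ^ k := by
    rw [Finset.card_erase_add_one h0c, Finset.card_compl, vec_card, hcard]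
    have : l.length ≤ 2 ^ k := by omega
    omega
  rcases hlen with h | h
  · obtain ⟨a, ha⟩ := Finset.card_eq_one.mp (show (l.toFinsetᶜ.erase 0).card = 1 by omega)
    rw [ha, Finset.sum_singleton] at herase
    have : a ∈ l.toFinsetᶜ.erase 0 := by rw [ha]; exact Finset.mem_singleton_self a
    exact (Finset.mem_erase.mp this).1 herase
  · obtain ⟨a, b, hab, he⟩ := Finset.card_eq_two.mp (show (l.toFinsetᶜ.erase 0).card = 2 by omega)
    rw [he, Finset.sum_pair hab] at herase
    exact vec_add_ne hab herase

/-- Fewer than `n - 1` colours never suffice. -/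
theorem star_bound {n m : ℕ} (c : Sym2 (Fin n) → Fin m) (hc : Proper n m c)
    (u : Fin n) : Function.Injective (fun v : {v : Fin n // v ≠ u} => c s(u, v.1)) := by
  intro v w h
  by_contra hne
  exact hc u v.1 w.1 v.2.symm w.2.symm (fun h => hne (Subtype.ext h)) h

theorem card_star {n : ℕ} (u : Fin n) : Fintype.card {v : Fin n // v ≠ u} = n - 1 := by
  rw [Fintype.card_subtype_compl]
  simp

theorem lower {n m : ℕ} (hn : 1 ≤ n) (c : Sym2 (Fin n) → Fin m) (hc : Proper n m c) : n - 1 ≤ m := by
  have h := Fintype.card_le_of_injective _ (star_bound c hc ⟨0, hn⟩)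
  rwa [card_star, Fintype.card_fin] at h

/-- For odd `n ≥ 3`, `n - 1` colours do not suffice. -/
theorem lower_odd {n : ℕ} (hn : 2 ≤ n) (hodd : Odd n) (c : Sym2 (Fin n) → Fin (n - 1))
    (hc : Proper n (n - 1) c) : False := by
  classical
  let a : Fin (n - 1) := ⟨0, by omega⟩
  have hex : ∀ u : Fin n, ∃ v : Fin n, v ≠ u ∧ c s(u, v) = a := by
    intro u
    have hb : Function.Bijective (fun v : {v : Fin n // v ≠ u} => c s(u, v.1)) := by
      rw [Fintype.bijective_iff_injective_and_card]
      exact ⟨star_bound c hc u, by rw [card_star, Fintype.card_fin]⟩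
    obtain ⟨v, hv⟩ := hb.2 a
    exact ⟨v.1, v.2, hv⟩
  choose f hf hfa using hex
  have hinv : Function.Involutive f := by
    intro u
    by_contra hne
    have h1 : c s(f u, f (f u)) = a := hfa (f u)
    have h2 : c s(f u, u) = a := by rw [Sym2.eq_swap]; exact hfa u
    exact hc (f u) (f (f u)) u (hf (f u)).symm (hf u) hne (h1.trans h2.symm)
  let g : Function.End (Fin n) := f
  have hfix : g ^ 2 ^ 1 = 1 := by
    funext u
    exact hinv u
  have := Equiv.Perm.card_fixedPoints_modEq (p := 2) (f := g) (n := 1) hfix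
  have h0 : Fintype.card (Function.fixedPoints g) = 0 := by
    rw [Fintype.card_eq_zero_iff]
    exact ⟨fun x => hf x.1 x.2⟩
  rw [h0, Fintype.card_fin] at this
  have h3 : n % 2 = 0 := this
  obtain ⟨t, ht⟩ := hodd
  omega

/-- **Main result.** -/
theorem result (k : ℕ) (hk : 3 ≤ k) (n : ℕ) (hn : n = 2 ^ k ∨ n = 2 ^ k - 1) :
    ∃ (m : ℕ) (c : Sym2 (Fin n) → Fin m), Proper n m c ∧
      (∀ m' : ℕ, (∃ c' : Sym2 (Fin n) → Fin m', Proper n m' c') → m ≤ m') ∧
      ∀ (v : Fin n) (w : (⊤ : SimpleGraph (Fin n)).Walk v v),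
        w.IsCycle → w.length = n - 2 → ¬ (w.edges.map c).Nodup := by
  classical
  have hk8 : 8 ≤ 2 ^ k := by
    calc 8 = 2 ^ 3 := by norm_num
      _ ≤ 2 ^ k := Nat.pow_le_pow_right (by norm_num) hk
  have hN : Fintype.card {a : Vec k // a ≠ 0} = 2 ^ k - 1 := by
    rw [Fintype.card_subtype_compl]
    simp
  let φ : {a : Vec k // a ≠ 0} ≃ Fin (2 ^ k - 1) := Fintype.equivFinOfCardEq hN
  obtain ⟨e⟩ : Nonempty (Fin n ↪ Vec k) := by
    rw [Function.Embedding.nonempty_iff_card_le, Fintype.card_fin, vec_card]
    omega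
  let ψ : Vec k → Fin (2 ^ k - 1) := fun a => if h : a ≠ 0 then φ ⟨a, h⟩ else ⟨0, by omega⟩
  have hψ : ∀ a b : Vec k, a ≠ 0 → b ≠ 0 → ψ a = ψ b → a = b := by
    intro a b ha hb h
    simp only [ψ, dif_pos ha, dif_pos hb] at h
    have := φ.injective h
    exact congrArg Subtype.val this
  refine ⟨2 ^ k - 1, fun s => ψ (colour e s), ?_, ?_, ?_⟩
  · intro u v w huv huw hvw h
    have h1 := hψ _ _ (by rw [colour_mk]; exact vec_add_ne (fun h => huv (e.injective h)))
      (by rw [colour_mk]; exact vec_add_ne (fun h => huw (e.injective h))) h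
    rw [colour_mk, colour_mk] at h1
    exact hvw (e.injective (add_left_cancel h1))
  · rintro m' ⟨c', hc'⟩
    rcases hn with hn | hn
    · have := lower (by omega) c' hc'
      omega
    · have h1 := lower (by omega) c' hc'
      by_contra hlt
      have hm : m' = n - 1 := by omega
      subst hm
      refine lower_odd (by omega) ?_ c' hc'
      rw [hn]
      have : Even (2 ^ k) := (Nat.even_pow.mpr ⟨even_two, by omega⟩)
      exact Nat.Even.sub_odd (by omega) this odd_one
  · intro v w hw hlen hnd
    have hnd2 : (w.edges.map (colour e)).Nodup := by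
      have : (w.edges.map (fun s => ψ (colour e s))) = (w.edges.map (colour e)).map ψ := by
        rw [List.map_map]; rfl
      rw [this] at hnd
      exact List.Nodup.of_map _ hnd
    have h0 : (0 : Vec k) ∉ w.edges.map (colour e) := by
      intro hmem
      obtain ⟨s, hs, h⟩ := List.mem_map.mp hmem
      have hadj := w.edges_subset_edgeSet hs
      induction s using Sym2.ind with
      | _ x y =>
        rw [SimpleGraph.mem_edgeSet, SimpleGraph.top_adj] at hadj
        rw [colour_mk] at h
        exact vec_add_ne (fun h => hadj (e.injective h)) h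
    have hsum : (w.edges.map (colour e)).sum = 0 := by
      rw [walk_sum vec_two, vec_two]
    refine list_sum_ne (by omega) _ hnd2 h0 ?_ hsum
    rw [List.length_map, SimpleGraph.Walk.length_edges, hlen]
    omega

end Pool.Agent.Results.MP_4bc86c_co.ExactLengthFails
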